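import Pool.Agent.W393.VR.Base

/-!
# Groups with the property (VRC): separation of points from cyclic and virtually cyclic subgroups
-/

set_option autoImplicit false

namespace Pool.Agent.W823.VR

open Pool.Agent.W393.VR

variable {P : Type*} [Group P]

/-- Separation of a point from a cyclic subgroup. -/
theorem sep (h : VRC P) (hrf : ∀ y : P, y ≠ 1 → ∃ N : Subgroup P, N.Normal ∧ N.FiniteIndex ∧ y ∉ N)
    (c x : P) (hx : x ∉ Subgroup.zpowers c) :
    ∃ N : Subgroup P, N.Normal ∧ N.FiniteIndex ∧ ∀ n ∈ N, ∀ k : ℤ, x ≠ c ^ k * n := by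
  obtain ⟨K, hK, hcK, ρ, hρ, hρ'⟩ := h c
  have hcKk : ∀ k : ℤ, c ^ k ∈ K := fun k => hcK (Subgroup.mem_zpowers_iff.2 ⟨k, rfl⟩)
  by_cases hxK : x ∈ K
  · -- x in K
    have hy : (ρ ⟨x, hxK⟩)⁻¹ * x ≠ 1 := by
      intro he
      apply hx
      have h1 : x = ρ ⟨x, hxK⟩ := by
        rw [inv_mul_eq_one] at he
        exact he.symm
      rw [h1]
      exact hρ _
    obtain ⟨M, hMn, hMf, hyM⟩ := hrf _ hy
    have := hK
    have := hMf
    have := hMn
    -- the subgroup of K of the elements n in M with ρ n in M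
    let S : Subgroup K := (M.subgroupOf K) ⊓ (M.comap ρ)
    have : (M.subgroupOf K).FiniteIndex := inferInstance
    have : (M.comap ρ).FiniteIndex := ⟨by
      rw [Subgroup.index_comap]
      exact (inferInstance : (M.subgroupOf ρ.range).FiniteIndex).index_ne_zero⟩
    have hSf : S.FiniteIndex := inferInstance
    let T : Subgroup P := S.map K.subtype
    have hTf : T.FiniteIndex := by
      constructor
      rw [Subgroup.index_map_subtype]
      exact mul_ne_zero hSf.index_ne_zero hK.index_ne_zero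
    refine ⟨T.normalCore, inferInstance, inferInstance, ?_⟩
    intro n hn k hxk
    have hnT : n ∈ T := Subgroup.normalCore_le T hn
    obtain ⟨s, hs, hsn⟩ := hnT
    have hs' : s ∈ S := hs
    rw [Subgroup.mem_inf] at hs'
    obtain ⟨hs1, hs2⟩ := hs'
    rw [Subgroup.mem_subgroupOf] at hs1
    rw [Subgroup.mem_comap] at hs2
    have hsn' : (s : P) = n := hsn
    apply hyM
    have e1 : (⟨x, hxK⟩ : K) = ⟨c ^ k, hcKk k⟩ * s := by
      apply Subtype.ext
      simp only [Subgroup.coe_mul]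
      rw [hsn']
      exact hxk
    have e2 : ρ ⟨c ^ k, hcKk k⟩ = c ^ k := hρ' _ (Subgroup.mem_zpowers_iff.2 ⟨k, rfl⟩)
    have e3 : ρ ⟨x, hxK⟩ = c ^ k * ρ s := by rw [e1, map_mul, e2]
    have e4 : (ρ ⟨x, hxK⟩)⁻¹ * x = (ρ s)⁻¹ * s := by
      rw [e3, hsn']
      conv_lhs => rw [hxk]
      group
    rw [e4]
    exact M.mul_mem (M.inv_mem hs2) hs1
  · have := hK
    refine ⟨K.normalCore, inferInstance, inferInstance, ?_⟩
    intro n hn k hxk
    apply hxK
    rw [hxk]
    exact K.mul_mem (hcKk k) (Subgroup.normalCore_le K hn)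

/-- A finite intersection of normal subgroups of finite index. -/
theorem inter_fin {ι : Type*} (s : Finset ι) (N : ι → Subgroup P) (hN : ∀ i ∈ s, (N i).Normal)
    (hf : ∀ i ∈ s, (N i).FiniteIndex) :
    ∃ M : Subgroup P, M.Normal ∧ M.FiniteIndex ∧ ∀ i ∈ s, M ≤ N i := by
  classical
  induction s using Finset.induction_on with
  | empty => exact ⟨⊤, inferInstance, inferInstance, fun i hi => absurd hi (Finset.notMem_empty i)⟩
  | insert a s ha ih =>
    obtain ⟨M, h1, h2, h3⟩ := ih (fun i hi => hN i (Finset.mem_insert_of_mem hi))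
      (fun i hi => hf i (Finset.mem_insert_of_mem hi))
    have := h1
    have := h2
    have := hN a (Finset.mem_insert_self a s)
    have := hf a (Finset.mem_insert_self a s)
    refine ⟨M ⊓ N a, inferInstance, inferInstance, fun i hi => ?_⟩
    rcases Finset.mem_insert.1 hi with rfl | hi
    · exact inf_le_right
    · exact le_trans inf_le_left (h3 i hi)

/-- Finitely many representatives of the right cosets. -/
theorem reps {R : Type*} [Group R] (H : Subgroup R) (hf : H.FiniteIndex) :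
    ∃ s : Finset R, ∀ r : R, ∃ t ∈ s, ∃ h ∈ H, r = h * t := by
  classical
  have := hf
  have : Finite (R ⧸ H) := Subgroup.finite_quotient_of_finiteIndex
  have : Fintype (R ⧸ H) := Fintype.ofFinite _
  refine ⟨Finset.univ.image (fun q : R ⧸ H => (Quotient.out q)⁻¹), fun r => ?_⟩
  refine ⟨(Quotient.out ((r⁻¹ : R) : R ⧸ H))⁻¹, Finset.mem_image.2 ⟨_, Finset.mem_univ _, rfl⟩,
    r * Quotient.out ((r⁻¹ : R) : R ⧸ H), ?_, by group⟩
  have h1 : ((Quotient.out ((r⁻¹ : R) : R ⧸ H) : R) : R ⧸ H) = ((r⁻¹ : R) : R ⧸ H) :=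
    QuotientGroup.out_eq' _
  rw [eq_comm, QuotientGroup.eq] at h1
  simpa using h1

/-- Separation of a point from the image of a group in which a cyclic group has finite index. -/
theorem sepR (h : VRC P) (hrf : ∀ y : P, y ≠ 1 → ∃ N : Subgroup P, N.Normal ∧ N.FiniteIndex ∧ y ∉ N)
    {R : Type*} [Group R] (a : R →* P) (d0 : R) (hfin : (Subgroup.zpowers d0).FiniteIndex)
    (x : P) (hx : x ∉ a.range) :
    ∃ N : Subgroup P, N.Normal ∧ N.FiniteIndex ∧ ∀ n ∈ N, ∀ r : R, x ≠ a r * n := by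
  classical
  obtain ⟨s, hs⟩ := reps _ hfin
  have key : ∀ t : R, ∃ N : Subgroup P, N.Normal ∧ N.FiniteIndex ∧
      ∀ n ∈ N, ∀ k : ℤ, x * (a t)⁻¹ ≠ (a d0) ^ k * n := by
    intro t
    refine sep h hrf (a d0) (x * (a t)⁻¹) ?_
    intro hm
    obtain ⟨k, hk⟩ := Subgroup.mem_zpowers_iff.1 hm
    apply hx
    refine ⟨d0 ^ k * t, ?_⟩
    rw [map_mul, map_zpow, hk]
    group
  choose N hN1 hN2 hN3 using key
  obtain ⟨M, hM1, hM2, hM3⟩ := inter_fin s N (fun i _ => hN1 i) (fun i _ => hN2 i)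
  refine ⟨M, hM1, hM2, fun n hn r hr => ?_⟩
  obtain ⟨t, hts, u, hu, hru⟩ := hs r
  obtain ⟨k, hk⟩ := Subgroup.mem_zpowers_iff.1 hu
  have h1 : a t * n * (a t)⁻¹ ∈ M := hM1.conj_mem n hn (a t)
  refine hN3 t _ (hM3 t hts h1) k ?_
  rw [hr, hru, ← hk, map_mul, map_zpow]
  group

/-- A normal subgroup of finite index which meets the image inside the cyclic group. -/
theorem sepD (h : VRC P) (hrf : ∀ y : P, y ≠ 1 → ∃ N : Subgroup P, N.Normal ∧ N.FiniteIndex ∧ y ∉ N)
    {R : Type*} [Group R] (a : R →* P) (ha : Function.Injective a) (d0 : R)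
    (hfin : (Subgroup.zpowers d0).FiniteIndex) :
    ∃ N : Subgroup P, N.Normal ∧ N.FiniteIndex ∧ N.comap a ≤ Subgroup.zpowers d0 := by
  classical
  obtain ⟨s, hs⟩ := reps _ hfin
  have key : ∀ t : R, ∃ N : Subgroup P, N.Normal ∧ N.FiniteIndex ∧
      (t ∉ Subgroup.zpowers d0 → ∀ n ∈ N, ∀ k : ℤ, a t ≠ (a d0) ^ k * n) := by
    intro t
    by_cases ht : t ∈ Subgroup.zpowers d0
    · exact ⟨⊤, inferInstance, inferInstance, fun h => absurd ht h⟩
    · obtain ⟨N, h1, h2, h3⟩ := sep h hrf (a d0) (a t) (by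
        intro hm
        obtain ⟨k, hk⟩ := Subgroup.mem_zpowers_iff.1 hm
        apply ht
        rw [← map_zpow] at hk
        exact Subgroup.mem_zpowers_iff.2 ⟨k, ha hk⟩)
      exact ⟨N, h1, h2, fun _ => h3⟩
  choose N hN1 hN2 hN3 using key
  obtain ⟨M, hM1, hM2, hM3⟩ := inter_fin s N (fun i _ => hN1 i) (fun i _ => hN2 i)
  refine ⟨M, hM1, hM2, fun r hr => ?_⟩
  rw [Subgroup.mem_comap] at hr
  obtain ⟨t, hts, u, hu, hru⟩ := hs r
  obtain ⟨k, hk⟩ := Subgroup.mem_zpowers_iff.1 hu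
  by_cases ht : t ∈ Subgroup.zpowers d0
  · rw [hru]
    exact Subgroup.mul_mem _ hu ht
  · exfalso
    refine hN3 t ht (a r) (hM3 t hts hr) (-k) ?_
    rw [hru, ← hk, map_mul, map_zpow]
    group

end Pool.Agent.W823.VR
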